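import Pool.Agent.H24.PM.Stmts

set_option autoImplicit false

/-! Common tools for the modules MAN and MAF. -/

namespace PM.T31
open MeasureTheory Complex PM

theorem mem_prs {u v : ℝ} {l : ℕ} (h : l ∈ PrS u v) (hv : 0 ≤ v) :
    l.Prime ∧ u < l ∧ (l : ℝ) ≤ v := by
  unfold PrS at h
  rw [Finset.mem_filter, Finset.mem_range] at h
  refine ⟨h.2.1, h.2.2, ?_⟩
  have : l ≤ ⌊v⌋₊ := by omega
  exact (Nat.cast_le.2 this).trans (Nat.floor_le hv)

theorem mem_prs_iff {u v : ℝ} {l : ℕ} (hv : 0 ≤ v) :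
    l ∈ PrS u v ↔ l.Prime ∧ u < l ∧ (l : ℝ) ≤ v := by
  refine ⟨fun h => mem_prs h hv, fun h => ?_⟩
  unfold PrS
  rw [Finset.mem_filter, Finset.mem_range]
  refine ⟨?_, h.1, h.2.1⟩
  have := Nat.le_floor h.2.2
  omega

/-- splitting of the product -/
theorem F_split (γ : ℝ) {a b c : ℝ} (ha : 0 ≤ a) (hab : a ≤ b) (hbc : b ≤ c) (σ t : ℝ) (ω : Om) :
    F γ (PrS a c) σ t ω = F γ (PrS a b) σ t ω * F γ (PrS b c) σ t ω := by
  classical
  have hd : Disjoint (PrS a b) (PrS b c) := by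
    rw [Finset.disjoint_left]
    intro l h1 h2
    have e1 := mem_prs h1 (ha.trans hab)
    have e2 := mem_prs h2 ((ha.trans hab).trans hbc)
    linarith [e1.2.2, e2.2.1]
  have hu : PrS a c = PrS a b ∪ PrS b c := by
    ext l
    rw [Finset.mem_union, mem_prs_iff ((ha.trans hab).trans hbc), mem_prs_iff (ha.trans hab),
      mem_prs_iff ((ha.trans hab).trans hbc)]
    constructor
    · rintro ⟨h1, h2, h3⟩
      rcases le_or_gt (l : ℝ) b with h | h
      · exact Or.inl ⟨h1, h2, h⟩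
      · exact Or.inr ⟨h1, h, h3⟩
    · rintro (⟨h1, h2, h3⟩ | ⟨h1, h2, h3⟩)
      · exact ⟨h1, h2, h3.trans hbc⟩
      · exact ⟨h1, hab.trans_lt h2, h3⟩
  unfold F
  rw [hu, Finset.prod_union hd]

theorem F_dep (γ : ℝ) (A : Finset ℕ) (σ t : ℝ) (ω ω' : Om) (h : ∀ l ∈ A, ω l = ω' l) :
    F γ A σ t ω = F γ A σ t ω' := by
  unfold F
  apply Finset.prod_congr rfl
  intro l hl
  unfold pt
  rw [h l hl]

theorem U_dep (γ : ℝ) (A : Finset ℕ) (a σ t δ : ℝ) (ω ω' : Om) (h : ∀ l ∈ A, ω l = ω' l) :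
    U γ A a σ t δ ω = U γ A a σ t δ ω' := by
  unfold U
  congr 1
  apply intervalIntegral.integral_congr
  intro θ _
  simp only
  rw [F_dep γ A _ _ ω ω' h]

theorem F_cont (hCONT : S_CONT) (γ : ℝ) (A : Finset ℕ) (hA : ∀ l ∈ A, l.Prime) {σ : ℝ}
    (hσ : -(1 / 2) < σ) : Continuous (fun q : Om × ℝ => F γ A σ q.2 q.1) := by
  have h1 := hCONT γ A hA
  have h2 : Continuous (fun q : Om × ℝ => ((σ, q.2, q.1) : ℝ × ℝ × Om)) :=
    continuous_const.prodMk (continuous_snd.prodMk continuous_fst)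
  have hmem : ∀ q : Om × ℝ, ((σ, q.2, q.1) : ℝ × ℝ × Om) ∈ {q : ℝ × ℝ × Om | -(1 / 2) < q.1} :=
    fun q => by
      rw [Set.mem_ofPred_eq]
      exact hσ
  have h3 := h1.comp_continuous h2 hmem
  exact h3

/-- bounded measurable functions are integrable -/
theorem int_of_bd {f : Om → ℝ} (hm : Measurable f) {B : ℝ} (h0 : ∀ ω, 0 ≤ f ω)
    (hB : ∀ ω, f ω ≤ B) : Integrable f P := by
  refine Integrable.of_bound hm.aestronglyMeasurable B ?_
  filter_upwards with ω
  rw [Real.norm_eq_abs, abs_of_nonneg (h0 ω)]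
  exact hB ω

theorem jensen {f : Om → ℝ} (hm : Measurable f) {B : ℝ} (h0 : ∀ ω, 0 ≤ f ω)
    (hB : ∀ ω, f ω ≤ B) {r : ℝ} (hr0 : 0 ≤ r) (hr1 : r ≤ 1) :
    ∫ ω, f ω ^ r ∂P ≤ (∫ ω, f ω ∂P) ^ r := by
  have hc := Real.concaveOn_rpow hr0 hr1
  refine hc.le_map_integral (f := f) (μ := P) ?_ isClosed_Ici ?_ (int_of_bd hm h0 hB) ?_
  · exact (Real.continuous_rpow_const hr0).continuousOn
  · filter_upwards with ω
    exact h0 ω
  · have hm2 : Measurable (fun ω => f ω ^ r) := hm.pow_const r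
    exact int_of_bd hm2 (fun ω => Real.rpow_nonneg (h0 ω) _)
      (fun ω => Real.rpow_le_rpow (h0 ω) (hB ω) hr0)

theorem sum_rpow_le {ι : Type*} (s : Finset ι) (f : ι → ℝ) (hf : ∀ i ∈ s, 0 ≤ f i) {a : ℝ}
    (ha : 1 ≤ a) : ∑ i ∈ s, f i ^ a ≤ (∑ i ∈ s, f i) ^ a := by
  classical
  induction s using Finset.induction_on with
  | empty => simp only [Finset.sum_empty]; positivity
  | insert i s hi ih =>
    rw [Finset.sum_insert hi, Finset.sum_insert hi]
    have h1 := ih (fun j hj => hf j (Finset.mem_insert_of_mem hj))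
    have h2 := Real.add_rpow_le_rpow_add (hf i (Finset.mem_insert_self _ _))
      (Finset.sum_nonneg fun j hj => hf j (Finset.mem_insert_of_mem hj)) ha (b := ∑ j ∈ s, f j)
    linarith

theorem rpow_sum_le {ι : Type*} (s : Finset ι) (f : ι → ℝ) (hf : ∀ i ∈ s, 0 ≤ f i) {a : ℝ}
    (ha0 : 0 < a) (ha : a ≤ 1) : (∑ i ∈ s, f i) ^ a ≤ ∑ i ∈ s, f i ^ a := by
  classical
  induction s using Finset.induction_on with
  | empty => simp only [Finset.sum_empty]; rw [Real.zero_rpow ha0.ne']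
  | insert i s hi ih =>
    rw [Finset.sum_insert hi, Finset.sum_insert hi]
    have h1 := ih (fun j hj => hf j (Finset.mem_insert_of_mem hj))
    have h2 := Real.rpow_add_le_add_rpow (hf i (Finset.mem_insert_self _ _))
      (Finset.sum_nonneg fun j hj => hf j (Finset.mem_insert_of_mem hj)) ha0.le ha
      (b := ∑ j ∈ s, f j)
    linarith

/-- The integral of `|F|^2` over an interval of `N` cells of length `2 δ` is bounded by the
majorants. -/
theorem cell_bound {g : ℝ → ℝ} (hg : Continuous g) (a δ : ℝ) (hδ : 0 < δ) (N : ℕ) (V : ℕ → ℝ)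
    (hV0 : ∀ j < N, 0 ≤ V j)
    (hV : ∀ j < N, ∀ t, |t - (a + (2 * j + 1) * δ)| ≤ δ → g t ≤ V j) (b : ℝ)
    (hb : b ≤ a + 2 * N * δ) (h0 : ∀ t, 0 ≤ g t) :
    ∫ t in Set.Icc a b, g t ≤ 2 * δ * ∑ j ∈ Finset.range N, V j := by
  have hii : ∀ x y : ℝ, IntervalIntegrable g volume x y := fun x y => hg.intervalIntegrable x y
  have key : ∀ n, n ≤ N → ∫ t in a..(a + 2 * n * δ), g t ≤ 2 * δ * ∑ j ∈ Finset.range n, V j := by
    intro n
    induction n with
    | zero => intro _; simp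
    | succ n ih =>
      intro hn
      have h1 := ih (by omega)
      have h2 : ∫ t in (a + 2 * n * δ)..(a + 2 * (n + 1 : ℕ) * δ), g t ≤ 2 * δ * V n := by
        have h3 : ∫ t in (a + 2 * n * δ)..(a + 2 * (n + 1 : ℕ) * δ), g t ≤
            ∫ t in (a + 2 * n * δ)..(a + 2 * (n + 1 : ℕ) * δ), V n := by
          apply intervalIntegral.integral_mono_on _ (hii _ _) intervalIntegrable_const
          · intro t ht
            apply hV n (by omega) t
            push_cast at ht
            rw [abs_le]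
            constructor
            · linarith [ht.1]
            · linarith [ht.2]
          · push_cast
            nlinarith
        rw [intervalIntegral.integral_const, smul_eq_mul] at h3
        have e : (a + 2 * (n + 1 : ℕ) * δ - (a + 2 * n * δ)) * V n = 2 * δ * V n := by
          push_cast; ring
        rw [e] at h3
        exact h3
      have h4 := intervalIntegral.integral_add_adjacent_intervals (hii a (a + 2 * n * δ))
        (hii (a + 2 * n * δ) (a + 2 * (n + 1 : ℕ) * δ))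
      rw [Finset.sum_range_succ, mul_add, ← h4]
      linarith
  have h5 := key N le_rfl
  rcases le_or_gt a b with hab | hab
  · rw [integral_Icc_eq_integral_Ioc, ← intervalIntegral.integral_of_le hab]
    refine le_trans ?_ h5
    rw [← intervalIntegral.integral_add_adjacent_intervals (hii a b) (hii b (a + 2 * N * δ))]
    have : 0 ≤ ∫ t in b..(a + 2 * N * δ), g t := intervalIntegral.integral_nonneg hb (fun t _ => h0 t)
    linarith
  · rw [Set.Icc_eq_empty (not_le.2 hab)]
    simp only [setIntegral_empty]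
    apply mul_nonneg (by positivity)
    exact Finset.sum_nonneg fun j hj => hV0 j (Finset.mem_range.1 hj)

end PM.T31
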